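import Pool.Agent.Helper58_MOO.Stmts

/-!
Squad MOO, module KEY (helper50): the key lemma for the forcing `DK`.
-/

set_option autoImplicit false

open Cardinal
open Pool.Agent.Helper69_LOTS

namespace Pool.Agent.MOO.H50

open Pool.Agent.MOO Node

theorem cm_mem {Y : Type} [Nonempty Y] (a : Y) : CM (fun N : Set Y => a ∈ N) := by
  refine (CM.skolem0 (X := Y) (k := id) (fun y => y = a)).mono (fun N _ h => ?_)
  obtain ⟨y, hy, rfl⟩ := h ⟨a, rfl⟩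
  exact hy

theorem key (hL : LuuStmt) : KeyStmt := by
  classical
  intro hP T K A C C₀ c cP hT hLi hAc hC₀ hsub hc D r₀ m ζ τ e hty
  by_contra hcon
  rw [not_CM_iff] at hcon
  -- the bad witnesses
  let Bad : Set (Set Om) → Node → Prop := fun N t => ∀ r₁ ∈ D, ∀ L₁ t₁,
    Typ r₀ m ζ τ e r₁ L₁ t₁ → cP (r₁.X, r₁.N) ∈ N → ∃ j, dlt (L₁ j) < dlt N ∧
      ¬ Acc T K A (dlt (L₁ j)) (tr (r₁.X : Set Node) (dlt (L₁ j)) ∪ orb e (t.res (dlt (L₁ j))))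
  have h1 : St {N : Set (Set Om) | ∃ r ∈ D, ∃ L t, Typ r₀ m ζ τ e r L t ∧ L 0 = N ∧ Bad N t} := by
    refine hcon.mono fun N hN => ?_
    simp only [Set.mem_ofPred_eq] at hN
    push Not at hN
    obtain ⟨r, hr, L, t, hty', hLN, hbad⟩ := hN
    refine ⟨r, hr, L, t, hty', hLN, fun r₁ hr₁ L₁ t₁ h h' => ?_⟩
    obtain ⟨j, hj, hj'⟩ := hbad r₁ hr₁ L₁ t₁ h h'
    exact ⟨j, hj, hj'⟩
  have hgd : ∀ (r : DK T K A C₀ c) (L : Fin (m + 1) → Set (Set Om)) (t : Node),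
      Typ r₀ m ζ τ e r L t → ∀ j, L j ∈ r.N := fun r L t h j => (h.models _).2 (Or.inr ⟨j, rfl⟩)
  have hs : Function.Injective (fun ξ : Om => ({ξ} : Set Om)) := Set.singleton_injective
  obtain ⟨η, hη⟩ := h1.press1 hs (R := fun N η => ∃ r ∈ D, ∃ L t, Typ r₀ m ζ τ e r L t ∧ L 0 = N ∧
    Bad N t ∧ t ∈ A η ∧ NoNull T (Kf K e) (A η)) (by
    rintro N ⟨r, hr, L, t, h, hLN, hbad⟩
    have hg := r.gd _ (hgd r L t h 0)
    have hacc := r.acc _ (hgd r L t h 0)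
    rw [h.orb] at hacc
    have hbe : Below e (dlt (L 0)) := fun g hg ξ hξ => (hty.be g hg ξ hξ).trans h.zlt
    obtain ⟨η, hη, htη, hnn⟩ := hAc.base _ (hsub hg.mem) e hbe t h.tT h.tht hacc
    refine ⟨η, ?_, r, hr, L, t, h, hLN, hbad, htη, hnn⟩
    rw [← hLN]
    exact (hg.tr η).2 hη)
  let W : Set (Set Om) → Node → Prop := fun N v => ∃ r ∈ D, ∃ L t, Typ r₀ m ζ τ e r L t ∧
    L 0 = N ∧ Bad N t ∧ t ∈ A η ∧ v ≤ t
  let Ap : Set Node := {v | v ∈ T ∧ St {N | W N v}}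
  have hτ : τ ∈ Ap := by
    refine ⟨hty.tT, hη.mono ?_⟩
    rintro N ⟨-, r, hr, L, t, h, hLN, hbad, htη, -⟩
    exact ⟨r, hr, L, t, h, hLN, hbad, htη, h.tau⟩
  have hnn : NoNull T (Kf K e) (A η) := by
    obtain ⟨N, ⟨-, r, hr, L, t, h, hLN, hbad, htη, hnn⟩, -⟩ := hη.nonempty
    exact hnn
  have htree : IsTree Ap := by
    rintro v ⟨hv, hv'⟩ ξ
    refine ⟨hT.down v hv ξ, hv'.mono ?_⟩
    rintro N ⟨r, hr, L, t, h, hLN, hbad, htη, hvt⟩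
    exact ⟨r, hr, L, t, h, hLN, hbad, htη, (res_le v ξ).trans hvt⟩
  have hAη : Ap ⊆ A η := by
    rintro v ⟨-, hv'⟩
    obtain ⟨N, ⟨r, hr, L, t, h, hLN, hbad, htη, hvt⟩, -⟩ := hv'.nonempty
    have := (hLi.tree η).2 t htη v.ht
    rwa [le_iff_res.1 hvt] at this
  have hext : ∀ v ∈ Ap, ∀ ε, v.ht ≤ ε → ∃ v' ∈ Ap, v ≤ v' ∧ v'.ht = ε := by
    rintro v ⟨hv, hv'⟩ ε hε
    have hcount : Countable {s : Node // s ∈ T ∧ s.ht = ε} := (hT.lev ε)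
    obtain ⟨v', hv''⟩ := (hv'.inter_cm (cm_mem ({ε} : Set Om))).pigeon
      (ι := {s : Node // s ∈ T ∧ s.ht = ε})
      (R := fun N v' => ∃ r ∈ D, ∃ L t, Typ r₀ m ζ τ e r L t ∧ L 0 = N ∧ Bad N t ∧ t ∈ A η ∧
        v ≤ t ∧ t.res ε = v'.1 ∧ ε ≤ t.ht) (by
      rintro N ⟨⟨r, hr, L, t, h, hLN, hbad, htη, hvt⟩, hεN⟩
      have hg := r.gd _ (hgd r L t h 0)
      rw [← hLN] at hεN
      have hlt := (hg.tr ε).1 hεN
      rw [← h.tht] at hlt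
      refine ⟨⟨t.res ε, hT.down t h.tT ε, res_ht_of_le hlt.le⟩, r, hr, L, t, h, hLN, hbad, htη,
        hvt, rfl, hlt.le⟩)
    have hle : v ≤ v'.1 := by
      obtain ⟨N, ⟨-, r, hr, L, t, h, hLN, hbad, htη, hvt, hres, -⟩, -⟩ := hv''.nonempty
      rw [← hres]
      exact le_res hvt hε
    refine ⟨v'.1, ⟨v'.2.1, hv''.mono ?_⟩, hle, v'.2.2⟩
    rintro N ⟨-, r, hr, L, t, h, hLN, hbad, htη, hvt, hres, -⟩
    exact ⟨r, hr, L, t, h, hLN, hbad, htη, by rw [← hres]; exact res_le t ε⟩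
  have hSub : Sub T Ap := by
    refine ⟨fun v hv => hv.1, htree, fun δ => ?_⟩
    rcases le_total τ.ht δ with h | h
    · obtain ⟨v, hv, -, hv'⟩ := hext τ hτ δ h
      exact ⟨v, hv, hv'⟩
    · exact ⟨τ.res δ, htree τ hτ δ, res_ht_of_le h⟩
  have hNN : NoNull T (Kf K e) Ap := fun B hB hB' => hnn B (hB.trans hAη) hB'
  obtain ⟨C', hC', hC'C, hbe', hclimb⟩ := hL hP T K A C hT hLi hAc Ap e hSub hext hNN
  -- the lower condition
  obtain ⟨N₁, ⟨⟨r₁, hr₁, L₁, t₁, hTy₁, hLN₁, -, -, -⟩, hC'N⟩, -⟩ :=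
    (hτ.2.inter_cm (cm_mem C')).nonempty
  have hL1 : ∀ j, L₁ j ∈ r₁.N := hgd r₁ L₁ t₁ hTy₁
  have hsubL : ∀ j, L₁ 0 ⊆ L₁ j := by
    intro j
    rcases (Fin.zero_le j).lt_or_eq with h | h
    · exact (hTy₁.mono 0 j h).1
    · rw [← h]
  have hdC : ∀ j, dlt (L₁ j) ∈ C' := by
    intro j
    refine (r₁.gd _ (hL1 j)).clubs C' (hsubL j ?_) hC'
    rw [hLN₁]
    exact hC'N
  have hdm : ∀ i j, i ≤ j → dlt (L₁ i) ≤ dlt (L₁ j) := by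
    intro i j hij
    rcases hij.lt_or_eq with h | h
    · exact (hTy₁.mono i j h).2.2.le
    · rw [h]
  have hz : ∀ k : ℕ, ∀ hk : k < m + 1, ∃ z ∈ Ap, z.ht = dlt (L₁ ⟨k, hk⟩) ∧
      ∀ j : Fin (m + 1), j ≤ ⟨k, hk⟩ → Acc T K A (dlt (L₁ j))
        (tr (r₁.X : Set Node) (dlt (L₁ j)) ∪ orb e (z.res (dlt (L₁ j)))) := by
    intro k
    induction k with
    | zero =>
      intro hk
      have h0 : (⟨0, hk⟩ : Fin (m + 1)) = 0 := rfl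
      obtain ⟨z, hz, -, hzht, hzacc⟩ := hclimb _ (hdC 0) τ hτ (by
        rw [hty.tht]; exact hTy₁.zlt) _ (r₁.acc _ (hL1 0))
      refine ⟨z, hz, hzht, fun j hj => ?_⟩
      have hj0 : j = 0 := le_antisymm hj (Fin.zero_le j)
      subst hj0
      rw [← hzht] at hzacc ⊢
      rw [res_self]
      exact hzacc
    | succ k ih =>
      intro hk
      obtain ⟨z, hz, hzht, hzacc⟩ := ih (by omega)
      have hlt : (⟨k, by omega⟩ : Fin (m + 1)) < ⟨k + 1, hk⟩ := by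
        rw [Fin.lt_def]; exact Nat.lt_succ_self k
      obtain ⟨z', hz', hzz', hzht', hzacc'⟩ := hclimb _ (hdC ⟨k + 1, hk⟩) z hz (by
        rw [hzht]; exact (hTy₁.mono _ _ hlt).2.2) _ (r₁.acc _ (hL1 ⟨k + 1, hk⟩))
      refine ⟨z', hz', hzht', fun j hj => ?_⟩
      rcases hj.lt_or_eq with h | h
      · have hj' : j ≤ ⟨k, by omega⟩ := by
          rw [Fin.lt_def] at h
          rw [Fin.le_def]
          exact Nat.lt_succ_iff.1 h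
        have := hzacc j hj'
        rwa [← res_eq_of_le hzz' (by rw [hzht]; exact hdm j _ hj')] at this
      · subst h
        rw [← hzht'] at hzacc' ⊢
        rw [res_self]
        exact hzacc'
  obtain ⟨z, hzA, hzht, hzacc⟩ := hz m (Nat.lt_succ_self m)
  obtain ⟨N₂, ⟨⟨⟨r₂, hr₂, L₂, t₂, hTy₂, hLN₂, hbad₂, -, hzt⟩, hcPN⟩, hdN⟩, -⟩ :=
    ((hzA.2.inter_cm (cm_mem (cP (r₁.X, r₁.N)))).inter_cm
      (cm_mem ({z.ht} : Set Om))).nonempty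
  obtain ⟨j, hj, hj'⟩ := hbad₂ r₁ hr₁ L₁ t₁ hTy₁ hcPN
  apply hj'
  have hjm : j ≤ ⟨m, Nat.lt_succ_self m⟩ := by
    rw [Fin.le_def]; exact Nat.lt_succ_iff.1 j.2
  rw [res_eq_of_le hzt (by rw [hzht]; exact hdm j _ hjm)]
  exact hzacc j hjm

end Pool.Agent.MOO.H50
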