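import Pool.Agent.Helper58_MOO.Stmts

/-!
Squad MOO, module SDC (helper50): the core of the properness of the forcing `SD`.
-/

set_option autoImplicit false

open Cardinal
open Pool.Agent.Helper69_LOTS

namespace Pool.Agent.MOO.H50

open Pool.Agent.MOO Node

namespace Sdc

/-- Models are countable subsets of this type. -/
abbrev U : Type := Set Node ⊕ Om

/-- The ambient type. -/
inductive X (P : Type) : Type
  | p (q : P)
  | d (D : Set P)
  | o (ξ : Om)
  | a (A : Set Node)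
  | n (N : Set U)
  | g (G : ℕ → List U → U)
  | t (s : Node)

/-- The embedding of `U`. -/
def uX {P : Type} : U → X P := Sum.elim X.a X.o

theorem uX_inj {P : Type} : Function.Injective (uX (P := P)) := by
  rintro (A | ξ) (B | η) h
  · exact congrArg Sum.inl (X.a.inj h)
  · exact absurd h (by simp [uX])
  · exact absurd h (by simp [uX])
  · exact congrArg Sum.inr (X.o.inj h)

/-- The trace of `N` on `ω₁` is `δ`. -/
def TrOK (N : Set U) (δ : Om) : Prop := ∀ ξ, (Sum.inr ξ : U) ∈ N ↔ ξ < δ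

theorem TrOK.uniq {N : Set U} {δ δ' : Om} (h : TrOK N δ) (h' : TrOK N δ') : δ = δ' := by
  apply le_antisymm
  · by_contra hc
    exact lt_irrefl _ ((h' _).1 ((h _).2 (not_le.1 hc)))
  · by_contra hc
    exact lt_irrefl _ ((h _).1 ((h' _).2 (not_le.1 hc)))

theorem exists_model (G : ℕ → List U → U) (A : Set U) (hA : A.Countable) :
    ∃ N, A ⊆ N ∧ N.Countable ∧ Cl G N ∧ ∃ δ, TrOK N δ := by
  have hne : Nonempty U := ⟨Sum.inl ∅⟩
  obtain ⟨N, h1, h2, h3, h4⟩ := (CM.and (X := U) (Φ := fun M => Cl G M) ⟨G, fun M _ h => h⟩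
    (CM.iio (o := (Sum.inr : Om → U)) Sum.inr_injective)).exists_ge A hA
  exact ⟨N, h1, h2, h3, h4⟩

variable (T : Set Node) (F : Set Node → Prop)

/-- The two sides. -/
def Side : Bool → Set Node → Prop
  | true, A => F A
  | false, A => Prp T F A

/-- The trees `B_a`. -/
def Bf (G : ℕ → List U → U) (l : List U) : Set Node :=
  {s | s ∈ T ∧ ∀ N' δ', N'.Countable → Cl G N' → TrOK N' δ' → (∀ x ∈ l, x ∈ N') → δ' ≤ s.ht →
    ∀ A', F A' → Sum.inl A' ∈ N' → s.res δ' ∉ A'}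

/-- Combination of two closure families. -/
def comb (G' G : ℕ → List U → U) : ℕ → List U → U
  | 0, l => Sum.inl (Bf T F G l)
  | n + 1, l => G' n l

/-- The models good for the first `k` nodes. -/
def Sn (t : ℕ → Node) (k : ℕ) (c : ℕ → Bool) (N : Set U) (δ' : Om) : Prop :=
  N.Countable ∧ TrOK N δ' ∧ ∀ i, i < k → ∃ A, Side T F (c i) A ∧ Sum.inl A ∈ N ∧ (t i).res δ' ∈ A

/-- The statement which is reflected. -/
def Rf (G : ℕ → List U → U) (δ' : Om) (s' : Node) (l : List U) (N : Set U) : Prop :=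
  N.Countable ∧ Cl G N ∧ TrOK N δ' ∧ (∀ x ∈ l, x ∈ N) ∧ ∃ A', F A' ∧ Sum.inl A' ∈ N ∧ s' ∈ A'

variable {T F}

theorem Side.tree (hF : ∀ A, F A → Sub T A) {b : Bool} {A : Set Node} (h : Side T F b A) :
    IsTree A := by
  cases b
  · exact h.2.1
  · exact (hF A h).2.1

theorem Side.or {b : Bool} {A : Set Node} (h : Side T F b A) : F A ∨ Prp T F A := by
  cases b
  · exact Or.inr h
  · exact Or.inl h

theorem Bf_prp (hT : AT T) (G : ℕ → List U → U) (l : List U) : Prp T F (Bf T F G l) := by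
  refine ⟨fun s hs => hs.1, ?_, ?_⟩
  · rintro s ⟨hs, hs'⟩ ξ
    refine ⟨hT.down s hs ξ, fun N' δ' h1 h2 h3 h4 h5 A' h6 h7 => ?_⟩
    have h8 : δ' ≤ ξ := h5.trans (min_le_left _ _)
    rw [res_res_of_le s h8]
    exact hs' N' δ' h1 h2 h3 h4 (h5.trans (min_le_right _ _)) A' h6 h7
  · intro B hB hSB hFB
    obtain ⟨N, h1, h2, h3, δ', h4⟩ := exists_model G ({x | x ∈ l} ∪ {Sum.inl B})
      ((l.finite_toSet.countable).union (Set.countable_singleton _))
    obtain ⟨s, hs, hsht⟩ := hSB.2.2 δ'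
    refine (hB hs).2 N δ' h2 h3 h4 (fun x hx => h1 (Or.inl hx)) hsht.ge B hFB (h1 (Or.inr rfl)) ?_
    rw [← hsht, res_self]
    exact hs

/-! ### One step extensions -/

theorem exists_succ (α : Om) : ∃ s, α < s ∧ ∀ γ, γ < s → γ ≤ α := by
  obtain ⟨s, h1, h2⟩ := Om_least (Om_exists_gt α)
  exact ⟨s, h1, fun γ hγ => not_lt.1 (h2 γ hγ)⟩

/-- The successor. -/
noncomputable def suc (α : Om) : Om := (exists_succ α).choose

theorem lt_suc (α : Om) : α < suc α := (exists_succ α).choose_spec.1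

theorem le_of_lt_suc {α γ : Om} (h : γ < suc α) : γ ≤ α := (exists_succ α).choose_spec.2 γ h

theorem le_or_eq_suc {α γ : Om} (h : γ ≤ suc α) : γ ≤ α ∨ γ = suc α := by
  rcases h.lt_or_eq with h | h
  · exact Or.inl (le_of_lt_suc h)
  · exact Or.inr h

theorem not_lim_suc (α : Om) : ¬ IsLim (suc α) := by
  rintro ⟨-, h⟩
  obtain ⟨η, h1, h2⟩ := h α (lt_suc α)
  exact absurd (le_of_lt_suc h2) (not_le.2 h1)

/-- One more step. -/
noncomputable def ext1 (p : SD T F) (S : Set (Set Node)) (hS : S.Countable)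
    (hS' : ∀ B ∈ S, F B ∨ Prp T F B) (β : Om) (hβ : p.dl p.len < β) : SD T F := by
  classical
  exact
  { len := suc p.len
    dl := fun ξ => if ξ ≤ p.len then p.dl ξ else β
    N := fun ξ => if ξ ≤ p.len then p.N ξ else p.N p.len ∪ S
    dmono := by
      intro ξ η h1 h2
      rcases le_or_eq_suc h2 with h3 | h3
      · rw [if_pos h3, if_pos (h1.le.trans h3)]
        exact p.dmono ξ η h1 h3
      · have h4 : ξ ≤ p.len := le_of_lt_suc (h3 ▸ h1)
        rw [if_pos h4, if_neg (by rw [h3]; exact not_le.2 (lt_suc _))]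
        rcases h4.lt_or_eq with h5 | h5
        · exact (p.dmono ξ p.len h5 le_rfl).trans hβ
        · rw [h5]; exact hβ
    dcont := by
      intro ν h1 h2 α hα
      rcases le_or_eq_suc h1 with h3 | h3
      · rw [if_pos h3] at hα
        obtain ⟨ξ, h4, h5⟩ := p.dcont ν h3 h2 α hα
        exact ⟨ξ, h4, by rw [if_pos (h4.le.trans h3)]; exact h5⟩
      · exact absurd (h3 ▸ h2) (not_lim_suc _)
    cnt := by
      intro ξ h1
      split_ifs with h2
      · exact p.cnt ξ h2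
      · exact (p.cnt _ le_rfl).union hS
    fam := by
      intro ξ h1 B hB
      split_ifs at hB with h2
      · exact p.fam ξ h2 B hB
      · rcases hB with hB | hB
        · exact p.fam _ le_rfl B hB
        · exact hS' B hB
    nmono := by
      intro ξ η h1 h2
      rcases le_or_eq_suc h2 with h3 | h3
      · rw [if_pos h3, if_pos (h1.trans h3)]
        exact p.nmono ξ η h1 h3
      · rw [if_neg (show ¬ η ≤ p.len by rw [h3]; exact not_le.2 (lt_suc _))]
        split_ifs with h4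
        · exact (p.nmono ξ p.len h4 le_rfl).trans Set.subset_union_left
        · exact le_rfl
    ncont := by
      intro ν h1 h2 B hB
      rcases le_or_eq_suc h1 with h3 | h3
      · rw [if_pos h3] at hB
        obtain ⟨ξ, h4, h5⟩ := p.ncont ν h3 h2 B hB
        exact ⟨ξ, h4, by rw [if_pos (h4.le.trans h3)]; exact h5⟩
      · exact absurd (h3 ▸ h2) (not_lim_suc _)
    side := by
      intro ν h1 h2 t ht htν
      rcases le_or_eq_suc h1 with h3 | h3
      · rw [if_pos h3] at htν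
        rcases p.side ν h3 h2 t ht htν with ⟨ξ₀, h4, h5⟩ | ⟨ξ₀, h4, h5⟩
        · left
          refine ⟨ξ₀, h4, fun ξ h6 h7 => ?_⟩
          have h8 : ξ ≤ p.len := h7.le.trans h3
          rw [if_pos h8, if_pos h8]
          exact h5 ξ h6 h7
        · right
          refine ⟨ξ₀, h4, fun ξ h6 h7 => ?_⟩
          have h8 : ξ ≤ p.len := h7.le.trans h3
          rw [if_pos h8, if_pos h8]
          exact h5 ξ h6 h7
      · exact absurd (h3 ▸ h2) (not_lim_suc _) }

theorem ext1_exists (p : SD T F) (S : Set (Set Node)) (hS : S.Countable)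
    (hS' : ∀ B ∈ S, F B ∨ Prp T F B) (β : Om) :
    ∃ q : SD T F, q ≤ p ∧ p.len < q.len ∧ S ⊆ q.N (suc p.len) ∧ suc p.len ≤ q.len ∧
      β < q.dl q.len := by
  classical
  obtain ⟨β', hβ'⟩ := Om_exists_gt (max β (p.dl p.len))
  refine ⟨ext1 p S hS hS' β' ((le_max_right _ _).trans_lt hβ'), ⟨(lt_suc _).le, fun ξ hξ => ?_⟩,
    lt_suc _, ?_, le_rfl, ?_⟩
  · exact ⟨if_pos hξ, if_pos hξ⟩
  · change S ⊆ if suc p.len ≤ p.len then _ else _
    rw [if_neg (not_le.2 (lt_suc _))]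
    exact Set.subset_union_right
  · change β < if suc p.len ≤ p.len then _ else _
    rw [if_neg (not_le.2 (lt_suc _))]
    exact (le_max_left _ _).trans_lt hβ'

/-- The trees in the list `l`. -/
def trees (T : Set Node) (F : Set Node → Prop) (l : List U) : Set (Set Node) :=
  {A | Sum.inl A ∈ l ∧ (F A ∨ Prp T F A)}

theorem trees_countable (l : List U) : (trees T F l).Countable := by
  have h : (trees T F l) ⊆ (Sum.inl : Set Node → U) ⁻¹' {x | x ∈ l} := fun A hA => hA.1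
  exact ((l.finite_toSet.preimage Sum.inl_injective.injOn).countable).mono h

/-- The chosen extension. -/
theorem exists_qq (p : SD T F) (D : Set (SD T F)) (l : List U) : ∃ q : SD T F,
    Dns D → q ∈ D ∧ q ≤ p ∧ p.len < q.len ∧ ∀ ξ, p.len < ξ → ξ ≤ q.len → trees T F l ⊆ q.N ξ := by
  by_cases hD : Dns D
  · obtain ⟨q₀, h1, h2, h3, h4, -⟩ := ext1_exists p (trees T F l) (trees_countable l)
      (fun B hB => hB.2) p.len
    obtain ⟨q, h5, h6⟩ := hD q₀
    refine ⟨q, fun _ => ⟨h5, h6.trans h1, h2.trans_le h6.1, fun ξ h7 h8 => ?_⟩⟩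
    have h9 : suc p.len ≤ ξ := by
      by_contra hc
      exact absurd (le_of_lt_suc (not_le.1 hc)) (not_le.2 h7)
    refine Set.Subset.trans ?_ (q.nmono _ _ h9 h8)
    rw [(h6.2 _ h4).2]
    exact h3
  · exact ⟨p, fun h => absurd h hD⟩

noncomputable def qq (p : SD T F) (D : Set (SD T F)) (l : List U) : SD T F :=
  (exists_qq p D l).choose

theorem qq_spec (p : SD T F) (D : Set (SD T F)) (l : List U) (hD : Dns D) :
    qq p D l ∈ D ∧ qq p D l ≤ p ∧ p.len < (qq p D l).len ∧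
      ∀ ξ, p.len < ξ → ξ ≤ (qq p D l).len → trees T F l ⊆ (qq p D l).N ξ :=
  (exists_qq p D l).choose_spec hD

noncomputable def Gq (p : SD T F) (D : Set (SD T F)) : ℕ → List U → U :=
  fun _ l => Sum.inr ((qq p D l).dl (qq p D l).len)

/-! ### The closure properties of the model -/

/-- The properties of `M` which are used. -/
structure MOK (T : Set Node) (F : Set Node → Prop) (M : Set (X (SD T F))) (δ : Om) : Prop where
  tr : ∀ ξ, X.o ξ ∈ M ↔ ξ < δ
  swN : ∀ N, X.n N ∈ M → N.Countable → ∀ x ∈ N, uX x ∈ M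
  trN : ∀ N, X.n N ∈ M → ∀ δ', TrOK N δ' → X.o δ' ∈ M
  lev : ∀ ξ, X.o ξ ∈ M → ∀ s ∈ T, s.ht = ξ → X.t s ∈ M
  base : ∀ G, X.g G ∈ M → ∃ N, X.n N ∈ M ∧ N.Countable ∧ Cl G N ∧ ∃ δ', TrOK N δ'
  comb : ∀ G' G, X.g G' ∈ M → X.g G ∈ M → X.g (comb T F G' G) ∈ M
  refl : ∀ G δ' s' l, X.g G ∈ M → X.o δ' ∈ M → X.t s' ∈ M → (∀ x ∈ l, uX x ∈ M) →
    (∃ N, Rf F G δ' s' l N) → ∃ N, X.n N ∈ M ∧ Rf F G δ' s' l N
  qq : ∀ p D l, X.p p ∈ M → X.d D ∈ M → (∀ x ∈ l, uX x ∈ M) → X.p (qq p D l) ∈ M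
  gq : ∀ p D, X.p p ∈ M → X.d D ∈ M → X.g (Gq p D) ∈ M
  top : ∀ p : SD T F, X.p p ∈ M → X.o (p.dl p.len) ∈ M
  den : ∀ α, X.o α ∈ M → X.d {p : SD T F | α < p.dl p.len} ∈ M

theorem exists_MOK (hT : AT T) : CM (fun M : Set (X (SD T F)) => ∃ δ, MOK T F M δ) := by
  classical
  have hne : Nonempty (X (SD T F)) := ⟨X.a ∅⟩
  have io : Function.Injective (X.o : Om → X (SD T F)) := fun _ _ h => X.o.inj h
  have ig : Function.Injective (X.g : _ → X (SD T F)) := fun _ _ h => X.g.inj h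
  have iN : Function.Injective (X.n : _ → X (SD T F)) := fun _ _ h => X.n.inj h
  have ip : Function.Injective (X.p : _ → X (SD T F)) := fun _ _ h => X.p.inj h
  have id' : Function.Injective (X.d : _ → X (SD T F)) := fun _ _ h => X.d.inj h
  have c1 := CM.iio io
  have c2 := CM.swallow (X := X (SD T F)) iN (fun N => if N.Countable then uX '' N else ∅) (by
    intro N
    split_ifs with h
    · exact h.image _
    · exact Set.countable_empty)
  have c3 := CM.skolem1 (X := X (SD T F)) (k := X.o) iN (fun N δ' => TrOK N δ')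
  have c4 := CM.swallow (X := X (SD T F)) io (fun ξ => X.t '' {s | s ∈ T ∧ s.ht = ξ})
    (fun ξ => (hT.lev ξ).image _)
  have c5 := CM.skolem1 (X := X (SD T F)) (k := X.n) ig
    (fun G N => N.Countable ∧ Cl G N ∧ ∃ δ', TrOK N δ')
  have c6 := CM.skolem2 (X := X (SD T F)) (k := X.g) ig ig (fun G' G G'' => G'' = comb T F G' G)
  have c7 := CM.skolemL (X := X (SD T F)) (fun l y => ∃ G δ' s' l',
    l = X.g G :: X.o δ' :: X.t s' :: l'.map uX ∧ ∃ N, y = X.n N ∧ Rf F G δ' s' l' N)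
  have c8 := CM.skolemL (X := X (SD T F)) (fun l y => ∃ p D l',
    l = X.p p :: X.d D :: l'.map uX ∧ y = X.p (Sdc.qq p D l'))
  have c9 := CM.skolem2 (X := X (SD T F)) (k := X.g) ip id' (fun p D G => G = Gq p D)
  have c10 := CM.skolem1 (X := X (SD T F)) (k := X.o) ip (fun p ξ => ξ = p.dl p.len)
  have c11 := CM.skolem1 (X := X (SD T F)) (k := X.d) io
    (fun α D => D = {p : SD T F | α < p.dl p.len})
  refine ((((((((((c1.and c2).and c3).and c4).and c5).and c6).and c7).and c8).and c9).and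
    c10).and c11).mono ?_
  rintro M - ⟨⟨⟨⟨⟨⟨⟨⟨⟨⟨⟨δ, d1⟩, d2⟩, d3⟩, d4⟩, d5⟩, d6⟩, d7⟩, d8⟩, d9⟩, d10⟩, d11⟩
  refine ⟨δ, ⟨d1, ?_, ?_, ?_, ?_, ?_, ?_, ?_, ?_, ?_, ?_⟩⟩
  · intro N hN hNc x hx
    have := d2 N hN
    rw [if_pos hNc] at this
    exact this ⟨x, hx, rfl⟩
  · intro N hN δ' hδ'
    obtain ⟨δ'', h1, h2⟩ := d3 N hN ⟨δ', hδ'⟩
    rw [hδ'.uniq h2]
    exact h1
  · intro ξ hξ s hs hsξ
    exact d4 ξ hξ ⟨s, ⟨hs, hsξ⟩, rfl⟩
  · intro G hG
    refine d5 G hG ?_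
    obtain ⟨N, -, h2⟩ := exists_model G ∅ Set.countable_empty
    exact ⟨N, h2⟩
  · intro G' G hG' hG
    obtain ⟨G'', h1, rfl⟩ := d6 G' G hG' hG ⟨_, rfl⟩
    exact h1
  · intro G δ' s' l hG hδ' hs' hl ⟨N, hN⟩
    obtain ⟨y, hy, G1, δ1, s1, l1, he, N1, hy1, hR⟩ := d7 (X.g G :: X.o δ' :: X.t s' :: l.map uX)
      (by
        intro x hx
        rcases List.mem_cons.1 hx with rfl | hx
        · exact hG
        rcases List.mem_cons.1 hx with rfl | hx
        · exact hδ'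
        rcases List.mem_cons.1 hx with rfl | hx
        · exact hs'
        obtain ⟨z, hz, rfl⟩ := List.mem_map.1 hx
        exact hl z hz) ⟨X.n N, G, δ', s', l, rfl, N, rfl, hN⟩
    simp only [List.cons.injEq, X.g.injEq, X.o.injEq, X.t.injEq] at he
    obtain ⟨e1, e2, e3, e4⟩ := he
    have e5 : l = l1 := (List.map_injective_iff.2 uX_inj) e4
    subst e1 e2 e3 e5 hy1
    exact ⟨N1, hy, hR⟩
  · intro p D l hp hD hl
    obtain ⟨y, hy, p1, D1, l1, he, hy1⟩ := d8 (X.p p :: X.d D :: l.map uX)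
      (by
        intro x hx
        rcases List.mem_cons.1 hx with rfl | hx
        · exact hp
        rcases List.mem_cons.1 hx with rfl | hx
        · exact hD
        obtain ⟨z, hz, rfl⟩ := List.mem_map.1 hx
        exact hl z hz) ⟨_, p, D, l, rfl, rfl⟩
    simp only [List.cons.injEq, X.p.injEq, X.d.injEq] at he
    obtain ⟨e1, e2, e4⟩ := he
    have e5 : l = l1 := (List.map_injective_iff.2 uX_inj) e4
    subst e1 e2 e5 hy1
    exact hy
  · intro p D hp hD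
    obtain ⟨G, h1, rfl⟩ := d9 p D hp hD ⟨_, rfl⟩
    exact h1
  · intro p hp
    obtain ⟨ξ, h1, rfl⟩ := d10 p hp ⟨_, rfl⟩
    exact h1
  · intro α hα
    obtain ⟨D, h1, rfl⟩ := d11 α hα ⟨_, rfl⟩
    exact h1

/-! ### The choice of the sides -/

/-- `M`-stationarity. -/
def MSt (T : Set Node) (F : Set Node → Prop) (M : Set (X (SD T F))) (t : ℕ → Node) (k : ℕ)
    (c : ℕ → Bool) : Prop :=
  ∀ G, X.g G ∈ M → ∃ N δ', X.n N ∈ M ∧ Cl G N ∧ Sn T F t k c N δ'

theorem exists_list {k : ℕ} {Q : ℕ → Set Node → Prop} (h : ∀ i, i < k → ∃ A, Q i A) :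
    ∃ l : List U, (∀ i, i < k → ∃ A, Q i A ∧ Sum.inl A ∈ l) ∧
      ∀ x ∈ l, ∃ i A, i < k ∧ Q i A ∧ x = Sum.inl A := by
  induction k with
  | zero => exact ⟨[], fun i hi => absurd hi (Nat.not_lt_zero i), fun x hx => absurd hx (by simp)⟩
  | succ k ih =>
    obtain ⟨l, h1, h2⟩ := ih (fun i hi => h i (by omega))
    obtain ⟨A, hA⟩ := h k (by omega)
    refine ⟨Sum.inl A :: l, fun i hi => ?_, fun x hx => ?_⟩
    · rcases Nat.lt_succ_iff_lt_or_eq.1 hi with h3 | h3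
      · obtain ⟨B, hB, hB'⟩ := h1 i h3
        exact ⟨B, hB, List.mem_cons_of_mem _ hB'⟩
      · subst h3
        exact ⟨A, hA, List.mem_cons_self⟩
    · rcases List.mem_cons.1 hx with rfl | hx
      · exact ⟨k, A, by omega, hA, rfl⟩
      · obtain ⟨i, B, h3, h4, h5⟩ := h2 x hx
        exact ⟨i, B, by omega, h4, h5⟩

theorem msStep (hT : AT T) (hF : ∀ A, F A → Sub T A) {M : Set (X (SD T F))} {δ : Om}
    (hM : MOK T F M δ) {t : ℕ → Node} (ht : ∀ i, t i ∈ T ∧ (t i).ht = δ) {k : ℕ} {c : ℕ → Bool}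
    (h : MSt T F M t k c) : ∃ b, MSt T F M t (k + 1) (Function.update c k b) := by
  have hupd : ∀ (b : Bool) (N : Set U) (δ' : Om), Sn T F t k c N δ' →
      (∃ A, Side T F b A ∧ Sum.inl A ∈ N ∧ (t k).res δ' ∈ A) →
      Sn T F t (k + 1) (Function.update c k b) N δ' := by
    intro b N δ' hS hA
    refine ⟨hS.1, hS.2.1, fun i hi => ?_⟩
    rcases Nat.lt_succ_iff_lt_or_eq.1 hi with h3 | h3
    · rw [Function.update_of_ne (by omega)]
      exact hS.2.2 i h3
    · subst h3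
      rw [Function.update_self]
      exact hA
  by_cases hb : MSt T F M t (k + 1) (Function.update c k true)
  · exact ⟨true, hb⟩
  refine ⟨false, fun G' hG' => ?_⟩
  unfold MSt at hb
  push Not at hb
  obtain ⟨G, hG, hbad⟩ := hb
  have hbad' : ∀ N δ', X.n N ∈ M → Cl G N → Sn T F t k c N δ' → ∀ A, F A → Sum.inl A ∈ N →
      (t k).res δ' ∉ A := by
    intro N δ' h1 h2 h3 A h4 h5 h6
    exact hbad N δ' h1 h2 (hupd true N δ' h3 ⟨A, h4, h5, h6⟩)
  obtain ⟨N, δN, hNM, hNcl, hNS⟩ := h (comb T F G' G) (hM.comb G' G hG' hG)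
  refine ⟨N, δN, hNM, fun n l hl => hNcl (n + 1) l hl, hupd false N δN hNS ?_⟩
  obtain ⟨l, hl1, hl2⟩ := exists_list (k := k)
    (Q := fun i A => Side T F (c i) A ∧ Sum.inl A ∈ N ∧ (t i).res δN ∈ A) hNS.2.2
  have hlN : ∀ x ∈ l, x ∈ N := by
    intro x hx
    obtain ⟨i, A, -, h1, rfl⟩ := hl2 x hx
    exact h1.2.1
  have hδN : δN < δ := (hM.tr _).1 (hM.trN N hNM δN hNS.2.1)
  refine ⟨Bf T F G l, Bf_prp hT G l, hNcl 0 l hlN, hT.down _ (ht k).1 _, ?_⟩
  intro N' δ' h1 h2 h3 h4 h5 A' h6 h7 h8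
  have hδ' : δ' ≤ δN := h5.trans (min_le_left _ _)
  rw [res_res_of_le _ hδ'] at h8
  have hδ'M : X.o δ' ∈ M := (hM.tr _).2 (hδ'.trans_lt hδN)
  have hres : (t k).res δ' ∈ T ∧ ((t k).res δ').ht = δ' := by
    refine ⟨hT.down _ (ht k).1 _, res_ht_of_le ?_⟩
    rw [(ht k).2]
    exact (hδ'.trans_lt hδN).le
  obtain ⟨N'', h9, h10, h11, h12, h13, A'', h14, h15, h16⟩ := hM.refl G δ' ((t k).res δ') l hG hδ'M
    (hM.lev δ' hδ'M _ hres.1 hres.2) (fun x hx => hM.swN N hNM hNS.1 x (hlN x hx))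
    ⟨N', h1, h2, h3, h4, A', h6, h7, h8⟩
  refine hbad' N'' δ' h9 h11 ⟨h10, h12, fun i hi => ?_⟩ A'' h14 h15 h16
  obtain ⟨A, ⟨h17, h18, h19⟩, h20⟩ := hl1 i hi
  refine ⟨A, h17, h13 _ h20, ?_⟩
  have := h17.tree hF _ h19 δ'
  rwa [res_res_of_le _ hδ'] at this

theorem MSt.congr {M : Set (X (SD T F))} {t : ℕ → Node} {k : ℕ} {c c' : ℕ → Bool}
    (h : MSt T F M t k c) (hc : ∀ i, i < k → c i = c' i) : MSt T F M t k c' := by
  intro G hG
  obtain ⟨N, δ', h1, h2, h3, h4, h5⟩ := h G hG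
  refine ⟨N, δ', h1, h2, h3, h4, fun i hi => ?_⟩
  rw [← hc i hi]
  exact h5 i hi

theorem exists_sides (hT : AT T) (hF : ∀ A, F A → Sub T A) {M : Set (X (SD T F))} {δ : Om}
    (hM : MOK T F M δ) {t : ℕ → Node} (ht : ∀ i, t i ∈ T ∧ (t i).ht = δ) :
    ∃ c : ℕ → Bool, ∀ k, MSt T F M t k c := by
  have h0 : MSt T F M t 0 (fun _ => true) := by
    intro G hG
    obtain ⟨N, h1, h2, h3, δ', h4⟩ := hM.base G hG
    exact ⟨N, δ', h1, h3, h2, h4, fun i hi => absurd hi (Nat.not_lt_zero i)⟩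
  have hstep : ∀ (k : ℕ) (c : {c : ℕ → Bool // MSt T F M t k c}),
      ∃ c' : {c : ℕ → Bool // MSt T F M t (k + 1) c}, ∀ i, i < k → c'.1 i = c.1 i := by
    intro k c
    obtain ⟨b, hb⟩ := msStep hT hF hM ht c.2
    exact ⟨⟨_, hb⟩, fun i hi => Function.update_of_ne (by omega) _ _⟩
  choose f hf using hstep
  let cs : ∀ k, {c : ℕ → Bool // MSt T F M t k c} := fun k => Nat.rec ⟨_, h0⟩ (fun k c => f k c) k
  have hcs : ∀ k, cs (k + 1) = f k (cs k) := fun k => rfl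
  have hag : ∀ k m i, i < k → (cs (k + m)).1 i = (cs k).1 i := by
    intro k m i hi
    induction m with
    | zero => rfl
    | succ m ih =>
      rw [← Nat.add_assoc, hcs, hf _ _ i (by omega), ih]
  refine ⟨fun i => (cs (i + 1)).1 i, fun k => (cs k).2.congr fun i hi => ?_⟩
  have := hag (i + 1) (k - (i + 1)) i (by omega)
  rw [show i + 1 + (k - (i + 1)) = k by omega] at this
  exact this

/-! ### The conditions -/

theorem pstep (hF : ∀ A, F A → Sub T A) {M : Set (X (SD T F))} {δ : Om}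
    (hM : MOK T F M δ) {t : ℕ → Node} {c : ℕ → Bool}
    {k : ℕ} (hc : MSt T F M t k c) (p : SD T F) (hp : X.p p ∈ M) (D : Set (SD T F))
    (hD : X.d D ∈ M) (hDd : Dns D) :
    ∃ p' : SD T F, X.p p' ∈ M ∧ p' ∈ D ∧ p' ≤ p ∧ p.len < p'.len ∧
      ∀ ξ, p.len < ξ → ξ ≤ p'.len → ∀ i, i < k →
        ∃ A ∈ p'.N ξ, Side T F (c i) A ∧ (t i).res (p'.dl ξ) ∈ A := by
  obtain ⟨N, δN, hNM, hNcl, hN1, hN2, hN3⟩ := hc (Gq p D) (hM.gq p D hp hD)
  obtain ⟨l, hl1, hl2⟩ := exists_list (k := k)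
    (Q := fun i A => Side T F (c i) A ∧ Sum.inl A ∈ N ∧ (t i).res δN ∈ A) hN3
  have hlN : ∀ x ∈ l, x ∈ N := by
    intro x hx
    obtain ⟨i, A, -, h1, rfl⟩ := hl2 x hx
    exact h1.2.1
  obtain ⟨h1, h2, h3, h4⟩ := qq_spec p D l hDd
  refine ⟨Sdc.qq p D l, hM.qq p D l hp hD (fun x hx => hM.swN N hNM hN1 x (hlN x hx)), h1, h2, h3,
    fun ξ hξ hξ' i hi => ?_⟩
  obtain ⟨A, ⟨h5, h6, h7⟩, h8⟩ := hl1 i hi
  refine ⟨A, h4 ξ hξ hξ' ⟨h8, h5.or⟩, h5, ?_⟩
  have h9 : (Sdc.qq p D l).dl (Sdc.qq p D l).len < δN := (hN2 _).1 (hNcl 0 l hlN)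
  have h10 : (Sdc.qq p D l).dl ξ ≤ δN := by
    rcases hξ'.lt_or_eq with h | h
    · exact (((Sdc.qq p D l).dmono _ _ h le_rfl).trans h9).le
    · rw [h]; exact h9.le
  have := h5.tree hF _ h7 ((Sdc.qq p D l).dl ξ)
  rwa [res_res_of_le _ h10] at this

/-- Fusion. -/
theorem fusion (pp : ℕ → SD T F) (hle : ∀ n, pp (n + 1) ≤ pp n)
    (hlen : ∀ n, (pp n).len < (pp (n + 1)).len) (δ : Om) (htop : ∀ n, (pp n).dl (pp n).len < δ)
    (hcof : ∀ α, α < δ → ∃ n, α < (pp n).dl (pp n).len) (t : ℕ → Node)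
    (ht : ∀ s ∈ T, s.ht = δ → ∃ i, s = t i) (c : ℕ → Bool)
    (hside : ∀ n ξ, (pp n).len < ξ → ξ ≤ (pp (n + 1)).len → ∀ i, i < n + 1 →
        ∃ A ∈ (pp (n + 1)).N ξ, Side T F (c i) A ∧ (t i).res ((pp (n + 1)).dl ξ) ∈ A) :
    ∃ q : SD T F, ∀ n, q ≤ pp n := by
  classical
  have hle' : ∀ n m, pp (n + m) ≤ pp n := by
    intro n m
    induction m with
    | zero => exact le_rfl
    | succ m ih => exact (hle _).trans ih
  have hle2 : ∀ n m, n ≤ m → pp m ≤ pp n := by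
    intro n m h
    have := hle' n (m - n)
    rwa [show n + (m - n) = m by omega] at this
  obtain ⟨ν, hν1, hν2⟩ := Om_sup (A := Set.range fun n => (pp n).len) (Set.countable_range _)
  have hlt : ∀ n, (pp n).len < ν := fun n => (hlen n).trans_le (hν1 _ ⟨n + 1, rfl⟩)
  have hex : ∀ ξ, ξ < ν → ∃ n, ξ ≤ (pp n).len := by
    intro ξ hξ
    obtain ⟨_, ⟨n, rfl⟩, h⟩ := hν2 ξ hξ
    exact ⟨n, h.le⟩
  have hnex : ∀ ξ, ν ≤ ξ → ¬ ∃ n, ξ ≤ (pp n).len := by
    rintro ξ hξ ⟨n, hn⟩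
    exact absurd (hξ.trans hn) (not_le.2 (hlt n))
  let dl : Om → Om := fun ξ => if h : ∃ n, ξ ≤ (pp n).len then (pp (Nat.find h)).dl ξ else δ
  let NN : Om → Set (Set Node) := fun ξ => if h : ∃ n, ξ ≤ (pp n).len then
    (pp (Nat.find h)).N ξ else ⋃ n, (pp n).N (pp n).len
  have hdl : ∀ n ξ, ξ ≤ (pp n).len → dl ξ = (pp n).dl ξ ∧ NN ξ = (pp n).N ξ := by
    intro n ξ hξ
    have h : ∃ n, ξ ≤ (pp n).len := ⟨n, hξ⟩
    have h1 : Nat.find h ≤ n := Nat.find_min' h hξ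
    have h2 := (hle2 _ _ h1).2 ξ (Nat.find_spec h)
    refine ⟨?_, ?_⟩
    · change (if h : ∃ n, ξ ≤ (pp n).len then (pp (Nat.find h)).dl ξ else δ) = _
      rw [dif_pos h, h2.1]
    · change (if h : ∃ n, ξ ≤ (pp n).len then (pp (Nat.find h)).N ξ else _) = _
      rw [dif_pos h, h2.2]
  have hdν : dl ν = δ := dif_neg (hnex ν le_rfl)
  have hNν : NN ν = ⋃ n, (pp n).N (pp n).len := dif_neg (hnex ν le_rfl)
  have hνlim : ∀ ν' : Om, ν' ≤ ν → ν' < ν ∨ ν' = ν := fun ν' h => h.lt_or_eq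
  let q : SD T F :=
    { len := ν
      dl := dl
      N := NN
      dmono := by
        intro ξ η h1 h2
        rcases h2.lt_or_eq with h3 | h3
        · obtain ⟨n, hn⟩ := hex η h3
          rw [(hdl n η hn).1, (hdl n ξ (h1.le.trans hn)).1]
          exact (pp n).dmono ξ η h1 hn
        · subst h3
          obtain ⟨n, hn⟩ := hex ξ h1
          rw [hdν, (hdl n ξ hn).1]
          rcases hn.lt_or_eq with h4 | h4
          · exact ((pp n).dmono _ _ h4 le_rfl).trans (htop n)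
          · rw [h4]; exact htop n
      dcont := by
        intro ν' h1 h2 α hα
        rcases h1.lt_or_eq with h3 | h3
        · obtain ⟨n, hn⟩ := hex ν' h3
          rw [(hdl n ν' hn).1] at hα
          obtain ⟨ξ, h4, h5⟩ := (pp n).dcont ν' hn h2 α hα
          exact ⟨ξ, h4, by rw [(hdl n ξ (h4.le.trans hn)).1]; exact h5⟩
        · subst h3
          rw [hdν] at hα
          obtain ⟨n, hn⟩ := hcof α hα
          exact ⟨(pp n).len, hlt n, by rw [(hdl n _ le_rfl).1]; exact hn⟩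
      cnt := by
        intro ξ h1
        rcases h1.lt_or_eq with h3 | h3
        · obtain ⟨n, hn⟩ := hex ξ h3
          rw [(hdl n ξ hn).2]
          exact (pp n).cnt ξ hn
        · subst h3
          rw [hNν]
          exact Set.countable_iUnion fun n => (pp n).cnt _ le_rfl
      fam := by
        intro ξ h1 B hB
        rcases h1.lt_or_eq with h3 | h3
        · obtain ⟨n, hn⟩ := hex ξ h3
          rw [(hdl n ξ hn).2] at hB
          exact (pp n).fam ξ hn B hB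
        · subst h3
          rw [hNν] at hB
          obtain ⟨n, hn⟩ := Set.mem_iUnion.1 hB
          exact (pp n).fam _ le_rfl B hn
      nmono := by
        intro ξ η h1 h2
        rcases h2.lt_or_eq with h3 | h3
        · obtain ⟨n, hn⟩ := hex η h3
          rw [(hdl n η hn).2, (hdl n ξ (h1.trans hn)).2]
          exact (pp n).nmono ξ η h1 hn
        · subst h3
          rcases h1.lt_or_eq with h4 | h4
          · obtain ⟨n, hn⟩ := hex ξ h4
            rw [hNν, (hdl n ξ hn).2]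
            exact ((pp n).nmono ξ _ hn le_rfl).trans
              (Set.subset_iUnion (fun n => (pp n).N (pp n).len) n)
          · rw [h4]
      ncont := by
        intro ν' h1 h2 B hB
        rcases h1.lt_or_eq with h3 | h3
        · obtain ⟨n, hn⟩ := hex ν' h3
          rw [(hdl n ν' hn).2] at hB
          obtain ⟨ξ, h4, h5⟩ := (pp n).ncont ν' hn h2 B hB
          exact ⟨ξ, h4, by rw [(hdl n ξ (h4.le.trans hn)).2]; exact h5⟩
        · subst h3
          rw [hNν] at hB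
          obtain ⟨n, hn⟩ := Set.mem_iUnion.1 hB
          exact ⟨(pp n).len, hlt n, by rw [(hdl n _ le_rfl).2]; exact hn⟩
      side := by
        intro ν' h1 h2 s hs hsν
        rcases h1.lt_or_eq with h3 | h3
        · obtain ⟨n, hn⟩ := hex ν' h3
          rw [(hdl n ν' hn).1] at hsν
          rcases (pp n).side ν' hn h2 s hs hsν with ⟨ξ₀, h4, h5⟩ | ⟨ξ₀, h4, h5⟩
          · left
            refine ⟨ξ₀, h4, fun ξ h6 h7 => ?_⟩
            have h8 := hdl n ξ (h7.le.trans hn)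
            rw [h8.1, h8.2]
            exact h5 ξ h6 h7
          · right
            refine ⟨ξ₀, h4, fun ξ h6 h7 => ?_⟩
            have h8 := hdl n ξ (h7.le.trans hn)
            rw [h8.1, h8.2]
            exact h5 ξ h6 h7
        · subst h3
          rw [hdν] at hsν
          obtain ⟨i, rfl⟩ := ht s hs hsν
          have key : ∀ ξ, (pp i).len < ξ → ξ < ν' →
              ∃ A ∈ NN ξ, Side T F (c i) A ∧ (t i).res (dl ξ) ∈ A := by
            intro ξ h4 h5
            have h6 : ∃ n, ξ ≤ (pp n).len := hex ξ h5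
            have h7 := Nat.find_spec h6
            have h8 : i < Nat.find h6 := by
              by_contra hcon
              have h9 := (hle2 _ _ (not_lt.1 hcon)).1
              exact absurd (h7.trans h9) (not_le.2 h4)
            obtain ⟨m, hm⟩ : ∃ m, Nat.find h6 = m + 1 := ⟨Nat.find h6 - 1, by omega⟩
            have h9 : (pp m).len < ξ := not_le.1 (Nat.find_min h6 (by omega))
            rw [hm] at h7
            have h10 := hdl (m + 1) ξ h7
            rw [h10.1, h10.2]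
            exact hside m ξ h9 h7 i (by omega)
          cases hci : c i
          · right
            refine ⟨(pp i).len, hlt i, fun ξ h4 h5 => ?_⟩
            obtain ⟨A, h6, h7, h8⟩ := key ξ h4 h5
            rw [hci] at h7
            exact ⟨A, h6, h7, h8⟩
          · left
            refine ⟨(pp i).len, hlt i, fun ξ h4 h5 => ?_⟩
            obtain ⟨A, h6, h7, h8⟩ := key ξ h4 h5
            rw [hci] at h7
            exact ⟨A, h6, h7, h8⟩ }
  exact ⟨q, fun n => ⟨(hlt n).le, fun ξ hξ => hdl n ξ hξ⟩⟩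

end Sdc

open Sdc in
theorem sdc : SdcStmt := by
  classical
  intro T F hT hF _
  have hij : Function.Injective (Sum.elim X.p X.d : SD T F ⊕ Set (SD T F) → X (SD T F)) := by
    rintro (a | a) (b | b) h
    · exact congrArg Sum.inl (X.p.inj h)
    · exact absurd h (by simp)
    · exact absurd h (by simp)
    · exact congrArg Sum.inr (X.d.inj h)
  have hne : Nonempty (SD T F ⊕ Set (SD T F)) := ⟨Sum.inr ∅⟩
  refine (CM.proj hij ((exists_MOK (T := T) (F := F) hT).mono (fun M hM h =>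
    (⟨hM, h⟩ : M.Countable ∧ ∃ δ, MOK T F M δ)))).mono ?_
  rintro _ - ⟨M, -, ⟨hMc, δ, hM⟩, rfl⟩ p hp
  have hp' : X.p p ∈ M := hp
  -- enumerate the nodes of height `δ`
  have hTne : ∃ s ∈ T, s.ht = δ := by
    obtain ⟨s, hs⟩ := hT.ne
    rcases le_total s.ht δ with h | h
    · obtain ⟨s', h1, -, h2⟩ := hT.ext s hs δ h
      exact ⟨s', h1, h2⟩
    · exact ⟨s.res δ, hT.down s hs δ, res_ht_of_le h⟩
  obtain ⟨t, ht⟩ := (hT.lev δ).exists_eq_range hTne
  have ht1 : ∀ i, t i ∈ T ∧ (t i).ht = δ := fun i => by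
    have : t i ∈ {s | s ∈ T ∧ s.ht = δ} := by rw [ht]; exact ⟨i, rfl⟩
    exact this
  have ht2 : ∀ s ∈ T, s.ht = δ → ∃ i, s = t i := fun s hs hsδ => by
    have : s ∈ {s | s ∈ T ∧ s.ht = δ} := ⟨hs, hsδ⟩
    rw [ht] at this
    obtain ⟨i, rfl⟩ := this
    exact ⟨i, rfl⟩
  obtain ⟨c, hc⟩ := exists_sides hT hF hM ht1
  -- enumerate the dense sets
  have hden : ∀ α, Dns {p : SD T F | α < p.dl p.len} := by
    intro α p
    obtain ⟨q, h1, -, -, -, h2⟩ := ext1_exists p ∅ Set.countable_empty (by simp) α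
    exact ⟨q, h2, h1⟩
  have hDne : ({D : Set (SD T F) | Dns D ∧ X.d D ∈ M}).Nonempty :=
    ⟨_, hden _, hM.den _ (hM.top p hp')⟩
  have hDc : ({D : Set (SD T F) | Dns D ∧ X.d D ∈ M}).Countable :=
    (hMc.preimage (f := X.d) (fun _ _ h => X.d.inj h)).mono fun D hD => hD.2
  obtain ⟨DD, hDD⟩ := hDc.exists_eq_range hDne
  have hDD1 : ∀ n, Dns (DD n) ∧ X.d (DD n) ∈ M := fun n => by
    have : DD n ∈ {D : Set (SD T F) | Dns D ∧ X.d D ∈ M} := by rw [hDD]; exact ⟨n, rfl⟩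
    exact this
  have hDD2 : ∀ D, Dns D → X.d D ∈ M → ∃ n, DD n = D := fun D h1 h2 => by
    have : D ∈ {D : Set (SD T F) | Dns D ∧ X.d D ∈ M} := ⟨h1, h2⟩
    rw [hDD] at this
    exact this
  -- the sequence
  have hst : ∀ (n : ℕ) (p : {p : SD T F // X.p p ∈ M}), ∃ p' : {p : SD T F // X.p p ∈ M},
      p'.1 ∈ DD n ∧ p'.1 ≤ p.1 ∧ p.1.len < p'.1.len ∧
      ∀ ξ, p.1.len < ξ → ξ ≤ p'.1.len → ∀ i, i < n + 1 →
        ∃ A ∈ p'.1.N ξ, Side T F (c i) A ∧ (t i).res (p'.1.dl ξ) ∈ A := by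
    intro n p
    obtain ⟨p', h1, h2⟩ := pstep hF hM (hc (n + 1)) p.1 p.2 (DD n) (hDD1 n).2 (hDD1 n).1
    exact ⟨⟨p', h1⟩, h2⟩
  choose f hf using hst
  let pp : ℕ → {p : SD T F // X.p p ∈ M} := fun n => Nat.rec ⟨p, hp'⟩ (fun n p => f n p) n
  have hpp : ∀ n, pp (n + 1) = f n (pp n) := fun n => rfl
  have h1 : ∀ n, (pp (n + 1)).1 ∈ DD n := fun n => by rw [hpp]; exact (hf n (pp n)).1
  have h2 : ∀ n, (pp (n + 1)).1 ≤ (pp n).1 := fun n => by rw [hpp]; exact (hf n (pp n)).2.1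
  have h3 : ∀ n, (pp n).1.len < (pp (n + 1)).1.len := fun n => by
    rw [hpp]; exact (hf n (pp n)).2.2.1
  obtain ⟨q, hq⟩ := fusion (fun n => (pp n).1) h2 h3 δ
    (fun n => (hM.tr _).1 (hM.top _ (pp n).2)) (fun α hα => by
      obtain ⟨n, hn⟩ := hDD2 _ (hden α) (hM.den α ((hM.tr α).2 hα))
      refine ⟨n + 1, ?_⟩
      have := h1 n
      rw [hn] at this
      exact this) t ht2 c (fun n => (hf n (pp n)).2.2.2)
  refine ⟨q, hq 0, fun D hD hDM => ?_⟩
  obtain ⟨n, rfl⟩ := hDD2 D hD hDM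
  exact ⟨(pp (n + 1)).1, h1 n, (pp (n + 1)).2, hq (n + 1)⟩

end Pool.Agent.MOO.H50
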